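import Mathlib
import Pool.Graph.R_pool_sql_team_8f841797.H30.SplD

set_option autoImplicit false

/-! Products of compacta splittable over Corson compacta. -/

namespace Pool.Agent.KS6_77.SplitCor

open Set Filter Topology Pool.Agent.H30.Spl

/-- a countable product of Corson compacta is Corson -/
theorem cor_pi {I : Type} [Countable I] {X : I → Type} [∀ i, TopologicalSpace (X i)]
    (h : ∀ i, Cor (X i)) : Cor (∀ i, X i) := by
  choose G hG hc using h
  let c : ∀ i, C(X i, ℝ) → C((∀ i, X i), ℝ) := fun i g =>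
    ⟨fun x => g (x i), g.continuous.comp (continuous_apply i)⟩
  refine ⟨⋃ i, c i '' G i, fun x _ y _ h => funext fun i => ?_, fun x => ?_⟩
  · exact hG i _ trivial _ trivial fun g hg => h _ (mem_iUnion.2 ⟨i, g, hg, rfl⟩)
  · refine (countable_iUnion fun i => (hc i (x i)).image (c i)).mono ?_
    rintro _ ⟨hu, hne⟩
    obtain ⟨i, g, hgi, rfl⟩ := mem_iUnion.1 hu
    exact mem_iUnion.2 ⟨i, g, ⟨hgi, hne⟩, rfl⟩

/-- an uncountable product of spaces with two points is not countably tight -/
theorem countable_of_tight {I : Type} {X : I → Type} [∀ i, TopologicalSpace (X i)]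
    [∀ i, T2Space (X i)] [∀ i, Nontrivial (X i)] (h : Tight (∀ i, X i)) : Countable I := by
  classical
  choose a b hab using fun i => exists_pair_ne (X i)
  let S : Set (∀ i, X i) := {q | {i | q i ≠ a i}.Finite}
  have hb : b ∈ closure S := by
    rw [mem_closure_iff]
    intro U hU hbU
    obtain ⟨F, u, hu, hFU⟩ := isOpen_pi_iff.1 hU b hbU
    refine ⟨fun i => if i ∈ F then b i else a i, hFU fun i hi => ?_, ?_⟩
    · simp only [Finset.mem_coe.1 hi, if_true]
      exact (hu i (Finset.mem_coe.1 hi)).2
    · refine F.finite_toSet.subset fun i hi => ?_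
      by_contra hiF
      exact hi (if_neg hiF)
  obtain ⟨B, hBS, hBc, hbB⟩ := h S b hb
  have hJ : (⋃ q ∈ B, {i | q i ≠ a i}).Countable := hBc.biUnion fun q hq => (hBS hq).countable
  by_contra hI
  have hne : (⋃ q ∈ B, {i | q i ≠ a i}) ≠ univ := fun he =>
    hI (countable_univ_iff.1 (he ▸ hJ))
  obtain ⟨i, hi⟩ := (ne_univ_iff_exists_notMem _).1 hne
  have hcl : IsClosed {q : ∀ i, X i | q i = a i} := isClosed_eq (continuous_apply i) continuous_const
  have hsub : closure B ⊆ {q | q i = a i} := closure_minimal (fun q hq => by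
    by_contra hqi
    exact hi (mem_iUnion₂.2 ⟨q, hq, hqi⟩)) hcl
  exact hab i (hsub hbB).symm

end Pool.Agent.KS6_77.SplitCor
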